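import Pool.Agent.V117.MGSc

/-!
# Quivers with maximal green sequences in the mutation class of a direct sum

Quivers without loops and oriented 2-cycles are encoded by skew-symmetric integer matrices.
-/

namespace Pool.Agent.Results.MP_10e588_co.DirectSum

open Pool.Agent.V117.MGS

/-- A quiver (no loops, no oriented 2-cycles, multiple arrows allowed) on the vertex set `V`:
`b i j` is the number of arrows `i → j` minus the number of arrows `j → i`. -/
def IsQuiver {V : Type} (b : V → V → ℤ) : Prop := ∀ i j, b i j = - b j i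

/-- Fomin-Zelevinsky mutation at `k`: arrows at `k` are reversed, every path `i → k → j` adds
an arrow `i → j`, and oriented 2-cycles are cancelled. -/
def mutate {V : Type} [DecidableEq V] (k : V) (b : V → V → ℤ) : V → V → ℤ := fun i j =>
  if i = k ∨ j = k then - b i j
  else b i j + max (b i k) 0 * max (b k j) 0 - max (b j k) 0 * max (b k i) 0

/-- The framed quiver: `Sum.inl i` is the vertex `i`, `Sum.inr i` is the frozen vertex `i'`,
with one arrow `i → i'`. -/
def framed {V : Type} [DecidableEq V] (b : V → V → ℤ) : V ⊕ V → V ⊕ V → ℤ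
  | .inl i, .inl j => b i j
  | .inl i, .inr j => if i = j then 1 else 0
  | .inr i, .inl j => if i = j then -1 else 0
  | .inr _, .inr _ => 0

/-- Mutation at the non-frozen vertex `k`, arrows between frozen vertices are discarded. -/
def iceMutate {V : Type} [DecidableEq V] (k : V) (f : V ⊕ V → V ⊕ V → ℤ) :
    V ⊕ V → V ⊕ V → ℤ
  | .inr _, .inr _ => 0
  | .inl i, .inl j => mutate (Sum.inl k) f (.inl i) (.inl j)
  | .inl i, .inr j => mutate (Sum.inl k) f (.inl i) (.inr j)
  | .inr i, .inl j => mutate (Sum.inl k) f (.inr i) (.inl j)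

/-- The non-frozen vertex `j` is green: no arrow goes from a frozen vertex to `j`. -/
def Green {V : Type} (f : V ⊕ V → V ⊕ V → ℤ) (j : V) : Prop :=
  ∀ i : V, ¬ 0 < f (.inr i) (.inl j)

/-- The list of vertices is green at every step, and in the end all vertices are red. -/
def IsMGS {V : Type} [DecidableEq V] : (V ⊕ V → V ⊕ V → ℤ) → List V → Prop
  | f, [] => ∀ j, ¬ Green f j
  | f, k :: l => Green f k ∧ IsMGS (iceMutate k f) l

/-- The quiver has a maximal green sequence. -/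
def HasMGS {V : Type} [DecidableEq V] (b : V → V → ℤ) : Prop :=
  ∃ l : List V, IsMGS (framed b) l

/-- The mutation class of `b`. -/
inductive Mut {V : Type} [DecidableEq V] (b : V → V → ℤ) : (V → V → ℤ) → Prop
  | refl : Mut b b
  | step (d : V → V → ℤ) (k : V) : Mut b d → Mut b (mutate k d)

/-- `d` is obtained from `b` by relabelling the vertices. -/
def Relabel {V : Type} (b d : V → V → ℤ) : Prop :=
  ∃ σ : Equiv.Perm V, ∀ i j, d (σ i) (σ j) = b i j

/-- The vertex set of `Ψ`: quivers of the mutation class that have a maximal green sequence,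
up to relabelling. -/
def Psi {V : Type} [DecidableEq V] (b : V → V → ℤ) : Set (Quot (Relabel (V := V))) :=
  {x | ∃ d, Mut b d ∧ HasMGS d ∧ x = Quot.mk _ d}

/-- The direct sum: `L` is the list of the pairs `(a_i, b_i)`, each adding one arrow. -/
def directSum {V W : Type} [DecidableEq V] [DecidableEq W] (b : V → V → ℤ)
    (b' : W → W → ℤ) (L : List (V × W)) : V ⊕ W → V ⊕ W → ℤ
  | .inl i, .inl j => b i j
  | .inr i, .inr j => b' i j
  | .inl i, .inr j => (L.count (i, j) : ℤ)
  | .inr i, .inl j => - (L.count (j, i) : ℤ)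

/-! ### Comparison with the helper files -/

section compare

variable {V : Type} [DecidableEq V]

theorem mutate_eq (k : V) (b : V → V → ℤ) : mutate k b = qmut k b := rfl

/-- ice quiver from its two parts -/
def toF (b c : V → V → ℤ) : V ⊕ V → V ⊕ V → ℤ
  | .inl i, .inl j => b i j
  | .inl i, .inr j => c i j
  | .inr i, .inl j => - c j i
  | .inr _, .inr _ => 0

theorem framed_eq (b : V → V → ℤ) : framed b = toF b idC := by
  funext x y
  rcases x with i | i <;> rcases y with j | j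
  · rfl
  · rfl
  · simp only [framed, toF, idC, eq_comm (a := i) (b := j)]
    split_ifs <;> rfl
  · rfl

theorem ice_eq (k : V) (b c : V → V → ℤ) :
    iceMutate k (toF b c) = toF (qmut k b) (mutC k b c) := by
  funext x y
  rcases x with i | i <;> rcases y with j | j
  · simp only [iceMutate, mutate, toF, qmut, Sum.inl.injEq]
  · simp only [iceMutate, mutate, toF, mutC, Sum.inl.injEq, reduceCtorEq, or_false]
  · simp only [iceMutate, mutate, toF, mutC, Sum.inl.injEq, reduceCtorEq, false_or]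
    split_ifs
    · ring
    · ring
  · rfl

omit [DecidableEq V] in
theorem green_iff (b c : V → V → ℤ) (j : V) : Green (toF b c) j ↔ ∀ i, 0 ≤ c j i := by
  unfold Green toF
  constructor
  · intro h i
    have := h i
    simp only at this
    omega
  · intro h i
    have := h i
    simp only
    omega

theorem isMGS_iff (L : List V) : ∀ (b c : V → V → ℤ), IsMGS (toF b c) L ↔ CSeq b c L := by
  induction L with
  | nil =>
    intro b c
    simp only [IsMGS, CSeq, green_iff]
  | cons k L ih =>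
    intro b c
    simp only [IsMGS, CSeq, green_iff, ice_eq, ih]

theorem hasMGS_iff (b : V → V → ℤ) : HasMGS b ↔ ∃ L, CSeq b idC L := by
  unfold HasMGS
  simp only [framed_eq, isMGS_iff]

instance (b : V → V → ℤ) [Fintype V] : Decidable (Skew b) := by
  unfold Skew; infer_instance

instance (b : V → V → ℤ) [Fintype V] : Decidable (Pool.Agent.V117.MGS.Ab b) := by
  unfold Pool.Agent.V117.MGS.Ab; infer_instance

instance (b : V → V → ℤ) (k : V) [Fintype V] : Decidable (Fork b k) := by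
  unfold Fork
  refine @instDecidableAnd _ _ ?_ (@instDecidableAnd _ _ ?_ (@instDecidableAnd _ _ ?_
    (@instDecidableAnd _ _ ?_ (@instDecidableAnd _ _ ?_ ?_)))) <;> infer_instance

instance decCSeq [Fintype V] : ∀ (b c : V → V → ℤ) (L : List V), Decidable (CSeq b c L)
  | _, c, [] => inferInstanceAs (Decidable (∀ k, ¬ (∀ j, 0 ≤ c k j)))
  | b, c, k :: l =>
    have := decCSeq (qmut k b) (mutC k b c) l
    inferInstanceAs (Decidable ((∀ j, 0 ≤ c k j) ∧ CSeq (qmut k b) (mutC k b c) l))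

end compare

/-! ### The three-vertex quiver -/

/-- The cyclic triangle with 2, 2 and 6 arrows. -/
def tri : Fin 3 → Fin 3 → ℤ := ![![0, -2, 6], ![2, 0, -2], ![-6, 2, 0]]

/-- acyclic core -/
def core3 : List (Fin 3 → Fin 3 → ℤ) :=
  [![![0, 2, 2], ![-2, 0, 2], ![-2, -2, 0]],
   ![![0, 2, -2], ![-2, 0, -2], ![2, 2, 0]],
   ![![0, -2, -2], ![2, 0, 2], ![2, -2, 0]]]

/-- core predicate -/
def K3 (b : Fin 3 → Fin 3 → ℤ) : Prop := b ∈ core3

theorem K3_a : ∀ b, K3 b → Skew b ∧ Pool.Agent.V117.MGS.Ab b := by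
  have : ∀ b ∈ core3, Skew b ∧ Pool.Agent.V117.MGS.Ab b := by decide +kernel
  exact this

theorem K3_b : ∀ b, K3 b → ∀ l, K3 (qmut l b) ∨ Fork (qmut l b) l := by
  have : ∀ b ∈ core3, ∀ l, qmut l b ∈ core3 ∨ Fork (qmut l b) l := by decide +kernel
  exact this

theorem K3_c : ∀ b, K3 b → ∀ l, K3 (qmut l b) →
      (∀ x, b x l ≤ 0) ∨ ((∀ x, b l x ≤ 0) ∧ ∃ y, 0 < b y l) := by
  have : ∀ b ∈ core3, ∀ l, qmut l b ∈ core3 →
      (∀ x, b x l ≤ 0) ∨ ((∀ x, b l x ≤ 0) ∧ ∃ y, 0 < b y l) := by decide +kernel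
  exact this

/-- the first acyclic quiver -/
def ac : Fin 3 → Fin 3 → ℤ := ![![0, 2, 2], ![-2, 0, 2], ![-2, -2, 0]]

theorem tri_eq : tri = qmut 1 ac := by decide +kernel

theorem ac_eq : ac = qmut 1 tri := by decide +kernel

theorem ac_mem : K3 ac := List.mem_cons_self

theorem fork_tri : Fork (qmut 1 ac) 1 := by decide +kernel

theorem cls_tri {d : Fin 3 → Fin 3 → ℤ} (h : Mut tri d) : K3 d ∨ ∃ k, Tree K3 d k := by
  induction h with
  | refl =>
    right
    refine ⟨1, ?_⟩
    rw [tri_eq]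
    exact Tree.base ac 1 ac_mem fork_tri
  | step d k _ ih => exact cls_mut (fun b hb => (K3_a b hb).1) K3_b ih k

theorem psi_tri_finite : (Psi tri).Finite := by
  have hfin : {b : Fin 3 → Fin 3 → ℤ | K3 b}.Finite := List.finite_toSet core3
  refine (hfin.image (Quot.mk (Relabel (V := Fin 3)))).subset ?_
  rintro x ⟨d, hd, hm, rfl⟩
  refine ⟨d, ?_, rfl⟩
  rcases cls_tri hd with h | ⟨k, h⟩
  · exact h
  · obtain ⟨L, hL⟩ := (hasMGS_iff d).1 hm
    exact (no_mgs_three K3_a K3_b K3_c h L hL).elim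

theorem ac_mgs : HasMGS ac := by
  rw [hasMGS_iff]
  exact ⟨[0, 1, 2], by decide +kernel⟩

theorem psi_tri_nonempty : (Psi tri).Nonempty := by
  refine ⟨Quot.mk _ ac, ac, ?_, ac_mgs, rfl⟩
  have := Mut.step (b := tri) tri 1 Mut.refl
  rw [mutate_eq, ← ac_eq] at this
  exact this

/-! ### The one-vertex quiver -/

/-- The quiver with one vertex. -/
def pt : Fin 1 → Fin 1 → ℤ := fun _ _ => 0

theorem pt_mgs : HasMGS pt := by
  rw [hasMGS_iff]
  exact ⟨[0], by decide +kernel⟩

theorem psi_pt_nonempty : (Psi pt).Nonempty := ⟨Quot.mk _ pt, pt, Mut.refl, pt_mgs, rfl⟩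

theorem mut_pt {d : Fin 1 → Fin 1 → ℤ} (h : Mut pt d) : d = pt := by
  induction h with
  | refl => rfl
  | step d k _ ih =>
    subst ih
    funext i j
    have hi : i = k := Subsingleton.elim _ _
    simp [mutate, hi, pt]

theorem psi_pt_finite : (Psi pt).Finite := by
  refine (Set.finite_singleton (Quot.mk (Relabel (V := Fin 1)) pt)).subset ?_
  rintro x ⟨d, hd, -, rfl⟩
  rw [mut_pt hd]
  rfl

/-! ### The direct sum -/

/-- two arrows from every vertex of the triangle to the new vertex -/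
def pairs : List (Fin 3 × Fin 1) := [(0, 0), (0, 0), (1, 0), (1, 0), (2, 0), (2, 0)]

/-- numbering of the four vertices -/
def idx : Fin 3 ⊕ Fin 1 → ℕ
  | .inl i => i
  | .inr _ => 3

/-- matrix from a table -/
def tab (M : List (List ℤ)) : Fin 3 ⊕ Fin 1 → Fin 3 ⊕ Fin 1 → ℤ := fun i j =>
  (M.getD (idx i) []).getD (idx j) 0

/-- the core of the mutation class of the direct sum -/
def core4 : List (Fin 3 ⊕ Fin 1 → Fin 3 ⊕ Fin 1 → ℤ) :=
  [tab [[0, -2, 6, 2], [2, 0, -2, 2], [-6, 2, 0, 2], [-2, -2, -2, 0]],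
   tab [[0, -2, 6, -2], [2, 0, -2, -2], [-6, 2, 0, -2], [2, 2, 2, 0]],
   tab [[0, 2, 2, -6], [-2, 0, 2, 2], [-2, -2, 0, -2], [6, -2, 2, 0]],
   tab [[0, 2, -2, -6], [-2, 0, -2, 2], [2, 2, 0, 2], [6, -2, -2, 0]],
   tab [[0, -2, -2, -2], [2, 0, 2, -2], [2, -2, 0, 6], [2, 2, -6, 0]],
   tab [[0, 2, 2, 2], [-2, 0, 2, -2], [-2, -2, 0, 6], [-2, 2, -6, 0]]]

/-- core predicate -/
def K4 (b : Fin 3 ⊕ Fin 1 → Fin 3 ⊕ Fin 1 → ℤ) : Prop := b ∈ core4

theorem K4_a : ∀ b, K4 b → Skew b ∧ Pool.Agent.V117.MGS.Ab b := by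
  have : ∀ b ∈ core4, Skew b ∧ Pool.Agent.V117.MGS.Ab b := by decide +kernel
  exact this

theorem K4_b : ∀ b, K4 b → ∀ l, K4 (qmut l b) ∨ Fork (qmut l b) l := by
  have : ∀ b ∈ core4, ∀ l, qmut l b ∈ core4 ∨ Fork (qmut l b) l := by decide +kernel
  exact this

theorem K4_m : ∀ b, K4 b → ∃ y, 0 < b y (Sum.inl 1) := by
  have : ∀ b ∈ core4, ∃ y, 0 < b y (Sum.inl 1) := by decide +kernel
  exact this

theorem K4_c : ∀ b, K4 b → ∀ l, K4 (qmut l b) → l = Sum.inl 1 ∨
      ((∀ x, b x l ≤ 0) ∧ ∀ x, ∃ y, 0 < qmut l b y x) ∨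
      ((∀ x, b l x ≤ 0) ∧ ∃ y, 0 < b y l) := by
  have : ∀ b ∈ core4, ∀ l, qmut l b ∈ core4 → l = Sum.inl 1 ∨
      ((∀ x, b x l ≤ 0) ∧ ∀ x, ∃ y, 0 < qmut l b y x) ∨
      ((∀ x, b l x ≤ 0) ∧ ∃ y, 0 < b y l) := by decide +kernel
  exact this

theorem sum_mem : K4 (directSum tri pt pairs) := by
  have : directSum tri pt pairs ∈ core4 := by decide +kernel
  exact this

theorem cls_sum {d : Fin 3 ⊕ Fin 1 → Fin 3 ⊕ Fin 1 → ℤ} (h : Mut (directSum tri pt pairs) d) :
    K4 d ∨ ∃ k, Tree K4 d k := by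
  induction h with
  | refl => exact Or.inl sum_mem
  | step d k _ ih => exact cls_mut (fun b hb => (K4_a b hb).1) K4_b ih k

theorem psi_sum_empty : Psi (directSum tri pt pairs) = ∅ := by
  rw [Set.eq_empty_iff_forall_notMem]
  rintro x ⟨d, hd, hm, -⟩
  obtain ⟨L, hL⟩ := (hasMGS_iff d).1 hm
  exact no_mgs_four (Sum.inl 1) K4_a K4_b K4_m K4_c (cls_sum hd) L hL

/-- There are quivers `Q` (three vertices) and `Q'` (one vertex) with `Ψ(Q)` and `Ψ(Q')` finite
and non-empty, and a direct sum `Q ⊕ Q'` with `Ψ(Q ⊕ Q')` empty. -/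
theorem result : ∃ (b : Fin 3 → Fin 3 → ℤ) (b' : Fin 1 → Fin 1 → ℤ) (L : List (Fin 3 × Fin 1)),
    IsQuiver b ∧ IsQuiver b' ∧ (Psi b).Finite ∧ (Psi b).Nonempty ∧
      (Psi b').Finite ∧ (Psi b').Nonempty ∧ Psi (directSum b b' L) = ∅ := by
  refine ⟨tri, pt, pairs, ?_, ?_, psi_tri_finite, psi_tri_nonempty, psi_pt_finite,
    psi_pt_nonempty, psi_sum_empty⟩
  · show ∀ i j, tri i j = - tri j i
    decide +kernel
  · intro i j
    simp [pt]

end Pool.Agent.Results.MP_10e588_co.DirectSum
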